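import Pool.Agent.W313.Hyp.Bound

/-!
An upper bound for the order of vanishing of the `L`-function of the Jacobian of a hyperelliptic
curve over a function field, in terms of the zeta functions modulo two of the fields generated by
the Weierstrass points.
-/

set_option autoImplicit false
set_option linter.all false
set_option maxHeartbeats 4000000

open Polynomial Pool.Agent.W343.BSD Pool.Agent.W313.Hyp

namespace Pool.Agent.Results.MP_60d5ce_nt.HyperellipticTwoAdic

/-- The multiplicity of the root `1` of an integral polynomial modulo two. -/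
noncomputable def muTwo (P : ℤ[X]) : ℕ := (P.map (Int.castRingHom (ZMod 2))).rootMultiplicity 1

theorem muTwo_odd {P : ℤ[X]} {h : ℕ} (hP : P.eval 1 = h) (hodd : Odd h) : muTwo P = 0 := by
  unfold muTwo
  apply rootMultiplicity_eq_zero
  rw [IsRoot.def]
  have h1 : (P.map (Int.castRingHom (ZMod 2))).eval 1 = ((h : ℕ) : ZMod 2) := by
    have h2 := eval_map_apply (Int.castRingHom (ZMod 2)) (1 : ℤ) (p := P)
    rw [map_one] at h2
    rw [h2, hP]
    simp
  rw [h1]
  intro h0
  have h3 := (ZMod.natCast_eq_zero_iff h 2).1 h0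
  obtain ⟨c, hc⟩ := hodd
  omega

theorem constDeg_eq_one {k K : Type} [Field k] [Field K] [Algebra k K]
    (h : ∀ x : K, IsAlgebraic k x → x ∈ (algebraMap k K).range) : constDeg k K = 1 := by
  unfold constDeg
  have h1 : algebraicClosure k K = ⊥ := by
    rw [eq_bot_iff]
    intro x hx
    obtain ⟨c, hc⟩ := h x (mem_algebraicClosure_iff.1 hx)
    rw [IntermediateField.mem_bot]
    exact ⟨c, hc⟩
  rw [h1, IntermediateField.finrank_bot]

/-- `f` is monic and separable, and `K[x] / (f)` is the product of the fields `L i = K(θ i)`. -/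
def IsProductOf {K : Type} [Field K] (f : K[X]) {ι : Type} [Fintype ι] {L : ι → Type}
    [∀ i, Field (L i)] [∀ i, Algebra K (L i)] (θ : ∀ i, L i) : Prop :=
  f.Monic ∧ f.Separable ∧ (∀ i, IntermediateField.adjoin K {θ i} = ⊤) ∧ ∏ i, minpoly K (θ i) = f

/-- `P` is the numerator of the zeta function of `F` and its value at `1` is the class number. -/
def IsNumerator (k F : Type) [Field k] [Field F] [Algebra k F] (P : ℤ[X]) : Prop :=
  S.IsZetaNum k F P ∧ P.eval 1 = S.classNumber k F

/-- At every place `v` outside `A` a semistable model `y ^ 2 = u ^ (-2 n) f(u ^ 2 x + r)` is given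
by `u = u v`, `r = r v`; outside the larger finite set `T` it has good reduction. -/
structure IsModelData {k K : Type} [Field k] [Field K] [Algebra k K] (f : K[X])
    (A T : Finset (FF.Place k K)) (u r : FF.Place k K → K) : Prop where
  subset : A ⊆ T
  ne_zero : ∀ v ∉ A, u v ≠ 0
  semistable : ∀ v ∉ A, IsSemistable v (model f (u v) (r v))
  good : ∀ v ∉ T, Squarefree (redPoly v (model f (u v) (r v)))

open Classical in
/-- Let `K` be the function field of a curve over the finite field `k` with `q` elements, `q` odd,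
and `f` a monic separable polynomial over `K`, of odd degree if `J` is to be the Jacobian of
`y ^ 2 = f(x)`. Let `K[x] / (f)` be the product of the fields `L i`, let `r i` be the degree of the
field of constants of `L i`. Suppose that the `L`-function of `J` without the Euler factors at the
places in `A` is `(1 - q T) ^ m * G / H`, where `H` is not zero modulo two. Then
`m + mu_K + 2 ∑ twoPart (r i) + ∑_{v ∈ A} twoPart (deg v) + ∑_{v ∈ T \ A} zeroTerm_v`
is at most `2 + ∑ mu_{L i} + ∑_{v ∈ T} aboveTerm_v + mu(H)`, where `mu` denotes the multiplicity of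
the root `1` modulo two, of the numerator of the zeta function for `K` and the `L i`. -/
theorem result (k K : Type) [Field k] [Finite k] [Field K] [Algebra k K] (h2 : (2 : k) ≠ 0)
    (hK : IsCurveField k K) (f : K[X]) (ι : Type) [Fintype ι] (L : ι → Type) [∀ i, Field (L i)]
    [∀ i, Algebra k (L i)] [∀ i, Algebra K (L i)] [∀ i, IsScalarTower k K (L i)] (θ : ∀ i, L i)
    (hθ : IsProductOf f θ) (A T : Finset (FF.Place k K)) (u r : FF.Place k K → K)
    (hAT : IsModelData f A T u r) :
    ∃ (PK : ℤ[X]) (PL : ι → ℤ[X]), IsNumerator k K PK ∧ (∀ i, IsNumerator k (L i) (PL i)) ∧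
      ∀ (m : ℕ) (G H : ℤ[X]), H.map (Int.castRingHom (ZMod 2)) ≠ 0 → HasOrder A f u r m G H →
        m + muTwo PK + 2 * ∑ i, twoPart (constDeg k (L i)) + ∑ v ∈ A, twoPart (S.deg v) +
            ∑ v ∈ T \ A, zeroTerm v (model f (u v) (r v)) ≤
          2 + ∑ i, muTwo (PL i) + ∑ v ∈ T, aboveTerm L v + muTwo H ∧
        ((∀ i, Odd (S.classNumber k (L i))) →
          m + 2 * ∑ i, twoPart (constDeg k (L i)) + ∑ v ∈ A, twoPart (S.deg v) +
              ∑ v ∈ T \ A, zeroTerm v (model f (u v) (r v)) ≤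
            2 + ∑ v ∈ T, aboveTerm L v + muTwo H) := by
  have hFF : FF.IsFF k K := ⟨hK.essFiniteType, hK.trdeg_eq_one⟩
  have hF : IsFam f θ := ⟨hθ.1, hθ.2.1, hθ.2.2.1, hθ.2.2.2⟩
  have hfd := hF.fd
  have hFFL : ∀ i, FF.IsFF k (L i) := fun i => isFF_of_finite (K := K)
  obtain ⟨PK, hPK, hPK1⟩ := exists_num_rel k K
  choose PL hPL hPL1 using fun i => exists_num_rel k (L i)
  refine ⟨PK, PL, ⟨(S.isZetaNum_iff PK).2 hPK, hPK1.trans (by rw [S.classNumber_eq])⟩,
    fun i => ⟨(S.isZetaNum_iff _).2 (hPL i), (hPL1 i).trans (by rw [S.classNumber_eq])⟩,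
    fun m G H hH hGH => ?_⟩
  have hq : ((Nat.card k : ℕ) : ZMod 2) = 1 := card_odd h2
  have hD := fun v : FF.Place k K => exists_fiberData (L := L) hF.fd hF.sep v
  choose S' e d D using hD
  set h : ∀ v : FF.Place k K, Polynomial v.RF := fun v => redPoly v (model f (u v) (r v)) with hh
  have hlift : ∀ v, v ∉ A → ∃ F : v.O[X], F.map v.O.subtype = model f (u v) (r v) ∧
      F.map v.resHom = h v := fun v hv => exists_lift v (hAT.semistable v hv).1
  have hmonic : ∀ v, v ∉ A → (h v).Monic := by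
    intro v hv
    obtain ⟨F, hF1, hF2⟩ := hlift v hv
    rw [← hF2]
    apply Monic.map
    apply monic_of_injective (f := v.O.subtype) Subtype.val_injective
    rw [hF1]
    exact monic_model (hAT.ne_zero v hv) hF.monic
  have h0 : ∀ v, v ∉ A → h v ≠ 0 := fun v hv => (hmonic v hv).ne_zero
  have hgood : ∀ v, v ∉ T → ∀ φ : ℕ → PowerSeries (ZMod 2),
      ∏ i, ∏ w ∈ S' v i, φ w.deg = ∏ P ∈ facs' v (h v), φ (v.deg * P.1.natDegree) := by
    intro v hv φ
    have hvA : v ∉ A := fun hA => hv (hAT.subset hA)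
    obtain ⟨F, hF1, hF2⟩ := hlift v hvA
    have hsc := hF.scale (r := r v) (hAT.ne_zero v hvA)
    have hsq : Squarefree (F.map v.resHom) := by
      rw [hF2]
      exact hAT.good v hv
    rw [kd_prod hsc v hF1 hsq (D v) φ, hF2]
    rfl
  have hG' : LS A h * (H : PowerSeries ℤ) =
      (((1 - Polynomial.C (Nat.card k : ℤ) * Polynomial.X) ^ m * G :
      Polynomial ℤ) : PowerSeries ℤ) := by
    have h3 := hGH
    unfold HasOrder at h3
    rw [LOutside_eq] at h3
    exact h3
  have hmain := glob_bound hq hF hPK (constDeg_eq_one hK.algClosed) hPL D A T hAT.subset h h0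
    hgood m G H hH hG'
  have e1 : ∑ v ∈ A, twoPart (S.deg v) = ∑ v ∈ A, twoPart v.deg :=
    Finset.sum_congr rfl fun v _ => by rw [S.deg_eq]
  have e2 : ∑ v ∈ T \ A, zeroTerm v (model f (u v) (r v)) =
      ∑ v ∈ T \ A, ∑ P ∈ facs' v (h v), twoPart (v.deg * P.1.natDegree) :=
    Finset.sum_congr rfl fun v hv => zeroTerm_eq v rfl (h0 v (Finset.mem_sdiff.1 hv).2)
  have e3 : ∑ v ∈ T, aboveTerm L v = ∑ v ∈ T, ∑ i, ∑ w ∈ S' v i, twoPart w.deg :=
    Finset.sum_congr rfl fun v _ => aboveTerm_eq (D v)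
  rw [e1, e2, e3]
  refine ⟨hmain, fun hodd => ?_⟩
  have h4 : ∑ i, muTwo (PL i) = 0 := Finset.sum_eq_zero fun i _ =>
    muTwo_odd (hPL1 i) (by rw [← S.classNumber_eq]; exact hodd i)
  have h5 : ∑ i, mu ((PL i).map (Int.castRingHom (ZMod 2))) = 0 := h4
  have h6 : mu (H.map (Int.castRingHom (ZMod 2))) = muTwo H := rfl
  rw [h5, h6] at hmain
  omega

end Pool.Agent.Results.MP_60d5ce_nt.HyperellipticTwoAdic
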