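import Pool.Agent.W528.HD.Fin
import Pool.Agent.W528.HC.MU
import Pool.Agent.W924.HC.PR
import Pool.Agent.W340.HD.IN
import Pool.Agent.W108.HD.ONE
import Pool.Agent.W940.HD.GE
import Pool.Agent.W160.HD.AP
import Pool.Agent.W125.HD.PE
import Pool.Agent.W551.HD.GN

set_option autoImplicit false

namespace Pool.Agent.Results.MP_60d5ce_nt.PolynomialBranchPoints

open Polynomial Pool.Agent.W528.HC Pool.Agent.W528.HD

/-- **The Birch-Swinnerton-Dyer conjecture for superelliptic Jacobians with polynomial branch points
over `k(t)` and all its Kummer extensions `k(t^(1/r))`.**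

Let `p` be a prime, `k` a finite field of characteristic `c = 1` modulo `p`, `r` prime to `p` and
`c`, with the `p r`-th roots of unity in `k`; let `f_1, ..., f_m` be any polynomials of degree at
most `D` over `k` (not all of the differences constant), `a_i > 0`, `2 D (a_1 + ... + a_m) < p`, and
let `J` be the Jacobian of the curve `y ^ p = ∏ (x - f_i(u ^ r)) ^ a_i` over `K = k(u)`. The
L-function of `J` is the product of the L-functions of the characters `(j, s)`, `0 < j < p`,
`0 ≤ s < r`, which are polynomials `∏ (1 - x T)` (Grothendieck): `IsPolyL` holds with the multiset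
`A j s` of the `x`. No position of the branch curves `x = f_i(t)` is excluded: all multiplicities of
intersections, also at infinity, are at most `D`, so no local monodromy has invariants on the
vanishing part.

Theorem: (1) the product `lPoly p r A` of these polynomials has the logarithmic coefficients
given by the numbers of points of the surface `y ^ p = ∏ (x - f_i(u ^ r)) ^ a_i` (so it is
`L(J, T)`, `T = q^(-s)`, `q = |k|`); (2) it does not vanish at `ζ / q` for any root of unity `ζ`:
`L(J, 1) ≠ 0` over all finite extensions of `k`. -/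
theorem result (p r c D : ℕ) (hp : p.Prime) (hr : 0 < r) (hrp : r.Coprime p)
    [Fact c.Prime] (hcr : ¬ c ∣ r) (hpc : p ∣ c - 1)
    (k : Type) [Field k] [Fintype k] [CharP k c] (z : k) (hz : IsPrimitiveRoot z (p * r))
    (E : Type) [Field E] [CharZero E] [IsAlgClosed E] (μ : E) (hμ : IsPrimitiveRoot μ (p * r))
    (m : ℕ) (f : Fin m → k[X]) (hD : 1 ≤ D) (hf : ∀ i, (f i).natDegree ≤ D)
    (a : Fin m → ℕ) (ha : ∀ i, 0 < a i) (ha2 : 2 * D * ∑ i, a i < p)
    (A : ℕ → ℕ → Multiset E)
    (hA : ∀ j s, 0 < j → j < p → s < r → IsPolyL k p r f a z μ j s (A j s)) :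
    (∀ (L : Type) [Field L] [Fintype L] [Algebra k L],
      ∑ j ∈ Finset.Ico 1 p, ∑ s ∈ Finset.range r,
          ((A j s).map fun x => x ^ Module.finrank k L).sum
        = (polyPoints L p r (fun i => (f i).map (algebraMap k L)) a : E)
          - (Fintype.card L : E) ^ 2) ∧
    ∀ (ζ : E) (M : ℕ), 0 < M → ζ ^ M = 1 →
      (lPoly p r A).eval (ζ * (Fintype.card k : E)⁻¹) ≠ 0 :=
  fin_poly Pool.Agent.W551.HD.GN.main
    (Pool.Agent.W108.HD.ONE.main Pool.Agent.W551.HD.GN.main Pool.Agent.W340.HD.IN.main
      Pool.Agent.W135.HB.SA.main)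
    Pool.Agent.W940.HD.GE.main Pool.Agent.W160.HD.AP.main
    (Pool.Agent.W125.HD.PE.main Pool.Agent.W924.HC.PR.main mu_main)
    hp hr hrp hcr hpc k hz hμ hD f hf a ha ha2 A hA

end Pool.Agent.Results.MP_60d5ce_nt.PolynomialBranchPoints
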